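import Pool.Agent.Helper95.HV.Stmts

/-!
# Row FLD of sheet HV: the cut off functions at all nuclei
-/

set_option autoImplicit false

namespace Pool.Agent.Helper37.HV

open MeasureTheory Filter
open Pool.Agent.Helper95.PW Pool.Agent.Helper95.LN Pool.Agent.Helper95.CF Pool.Agent.Helper95.HV

theorem fld_nr (y : R3) : nr y = ‖(WithLp.toLp 2 y : EuclideanSpace ℝ (Fin 3))‖ := by
  rw [EuclideanSpace.norm_eq]
  simp [nr, Fin.sum_univ_three, sq_abs]

theorem fld_tri (a b y : R3) : nr (a - b) ≤ nr (y - a) + nr (y - b) := by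
  rw [fld_nr, fld_nr, fld_nr]
  have h : (WithLp.toLp 2 (a - b) : EuclideanSpace ℝ (Fin 3)) =
      WithLp.toLp 2 (y - b) - WithLp.toLp 2 (y - a) := by
    ext i
    simp
  rw [h, add_comm]
  exact norm_sub_le _ _

theorem fld_cont (a : R3) : Continuous fun y : R3 => nr (y - a) := by
  unfold nr
  fun_prop

theorem fld_pd_ev {f g : R3 → ℝ} {y : R3} (h : f =ᶠ[nhds y] g) (i : Fin 3) :
    pd i f =ᶠ[nhds y] pd i g := by
  have h1 := h.fderiv (𝕜 := ℝ)
  filter_upwards [h1] with z hz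
  unfold pd
  rw [hz]

theorem fld_pd (i : Fin 3) (g : R3 → ℝ) (p : R3) :
    pd i (fun y => g (y - p)) = fun y => pd i g (y - p) := by
  funext y
  unfold pd
  rw [fderiv_comp_sub]

theorem fld_pd0 (i : Fin 3) : pd i (fun _ : R3 => (0 : ℝ)) = fun _ => 0 := by
  funext y
  unfold pd
  simp

theorem fld_scale_sub {g : R3 → ℝ} {K r : ℝ} (h : Scale g K r) (p : R3) :
    Scale (fun y => g (y - p)) K r where
  sm := h.sm.comp (contDiff_id.sub contDiff_const)
  cs := h.cs.comp_homeomorph (Homeomorph.subRight p)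
  d1 i y := by
    rw [fld_pd]
    exact h.d1 i _
  d2 i j y := by
    rw [fld_pd, fld_pd]
    exact h.d2 i j _
  d3 i j l y := by
    rw [fld_pd, fld_pd, fld_pd]
    exact h.d3 i j l _
  d4 i j l m y := by
    rw [fld_pd, fld_pd, fld_pd, fld_pd]
    exact h.d4 i j l m _

theorem fld_scale_zero {K r : ℝ} (hK : 0 ≤ K) (hr : 0 < r) :
    Scale (fun _ : R3 => (0 : ℝ)) K r where
  sm := contDiff_const
  cs := HasCompactSupport.zero
  d1 i y := by
    rw [fld_pd0]
    simpa using hK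
  d2 i j y := by
    rw [fld_pd0, fld_pd0]
    simp only [abs_zero]
    positivity
  d3 i j l y := by
    rw [fld_pd0, fld_pd0, fld_pd0]
    simp only [abs_zero]
    positivity
  d4 i j l m y := by
    rw [fld_pd0, fld_pd0, fld_pd0, fld_pd0]
    simp only [abs_zero]
    positivity

/-- near `y` all terms but `j0` vanish -/
theorem fld_loc {M : ℕ} {X : Fin M → R3} {d a : ℝ} (hX : Sep X d) (had : a ≤ d) (hd : 0 < d)
    (f : Fin M → R3 → ℝ) (hz : ∀ j y, a ≤ nr (y - X j) → f j y = 0) (y : R3) (j0 : Fin M)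
    (hj : nr (y - X j0) ≤ d) : (fun z => ∑ j, f j z) =ᶠ[nhds y] f j0 := by
  have h1 : ∀ j, ∀ᶠ z in nhds y, j ≠ j0 → a < nr (z - X j) := by
    intro j
    by_cases h : j = j0
    · exact Eventually.of_forall fun z hz => absurd h hz
    · have h2 := hX j j0 h
      have h3 := fld_tri (X j) (X j0) y
      have h4 : a < nr (y - X j) := by linarith
      have h5 := (fld_cont (X j)).continuousAt.eventually (lt_mem_nhds h4)
      filter_upwards [h5] with z hz _ using hz
  have h2 : ∀ᶠ z in nhds y, ∀ j, j ≠ j0 → a < nr (z - X j) := eventually_all.2 h1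
  filter_upwards [h2] with z hz1
  exact Finset.sum_eq_single j0 (fun j _ hne => hz j z (hz1 j hne).le)
    (fun h => absurd (Finset.mem_univ _) h)

theorem fld_loc0 {M : ℕ} {X : Fin M → R3} {a : ℝ}
    (f : Fin M → R3 → ℝ) (hz : ∀ j y, a ≤ nr (y - X j) → f j y = 0) (y : R3)
    (hj : ∀ j, a < nr (y - X j)) : (fun z => ∑ j, f j z) =ᶠ[nhds y] fun _ => 0 := by
  have h2 : ∀ᶠ z in nhds y, ∀ j, a < nr (z - X j) := eventually_all.2 fun j =>
    (fld_cont (X j)).continuousAt.eventually (lt_mem_nhds (hj j))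
  filter_upwards [h2] with z hz1
  exact Finset.sum_eq_zero fun j _ => hz j z (hz1 j).le

theorem fld_sum {M : ℕ} {X : Fin M → R3} {d a K r : ℝ} (hX : Sep X d) (had : a ≤ d) (hd : 0 < d)
    (hK : 0 ≤ K) (hr : 0 < r) (f : Fin M → R3 → ℝ) (hf : ∀ j, Scale (f j) K r)
    (hz : ∀ j y, a ≤ nr (y - X j) → f j y = 0) : Scale (fun y => ∑ j, f j y) K r := by
  have hl : ∀ y, ∃ F, Scale F K r ∧ (fun y => ∑ j, f j y) =ᶠ[nhds y] F := by
    intro y
    by_cases h : ∃ j0, nr (y - X j0) ≤ d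
    · obtain ⟨j0, hj0⟩ := h
      exact ⟨f j0, hf j0, fld_loc hX had hd f hz y j0 hj0⟩
    · push Not at h
      exact ⟨_, fld_scale_zero hK hr, fld_loc0 f hz y fun j => lt_of_le_of_lt had (h j)⟩
  refine ⟨ContDiff.sum fun j _ => (hf j).sm, ?_, ?_, ?_, ?_, ?_⟩
  · refine HasCompactSupport.intro (isCompact_iUnion fun j => (hf j).cs) fun y hy => ?_
    refine Finset.sum_eq_zero fun j _ => ?_
    apply image_eq_zero_of_notMem_tsupport
    intro hm
    exact hy (Set.mem_iUnion.2 ⟨j, hm⟩)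
  · intro i y
    obtain ⟨F, hF, he⟩ := hl y
    rw [(fld_pd_ev he i).eq_of_nhds]
    exact hF.d1 i y
  · intro i j y
    obtain ⟨F, hF, he⟩ := hl y
    rw [(fld_pd_ev (fld_pd_ev he j) i).eq_of_nhds]
    exact hF.d2 i j y
  · intro i j l y
    obtain ⟨F, hF, he⟩ := hl y
    rw [(fld_pd_ev (fld_pd_ev (fld_pd_ev he l) j) i).eq_of_nhds]
    exact hF.d3 i j l y
  · intro i j l m y
    obtain ⟨F, hF, he⟩ := hl y
    rw [(fld_pd_ev (fld_pd_ev (fld_pd_ev (fld_pd_ev he m) l) j) i).eq_of_nhds]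
    exact hF.d4 i j l m y

theorem FLD (h1 : ST_CUT) : ST_FLD := by
  obtain ⟨K, hK, hA, hB⟩ := h1
  refine ⟨K, hK, ?_⟩
  intro M X d r ρ m hd hX hr hrρ hρ
  have hρ0 : 0 < ρ := lt_of_lt_of_le hr hrρ
  have had : 2 * ρ ≤ d := by linarith
  have hz : ∀ (s : ℝ), 0 < s → s ≤ ρ → ∀ (j : Fin M) (y : R3), 2 * ρ ≤ nr (y - X j) →
      gm m s (y - X j) = 0 := fun s hs hsρ j y hy =>
    (hA m s hs).2.2 _ (by linarith)
  have e1 : gN X m ρ = fun y => ∑ j, (fun z => gm m ρ (z - X j)) y := rfl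
  have e2 : (fun y => gN X m ρ y - gN X m r y) =
      fun y => ∑ j, (fun z => gm m ρ (z - X j) - gm m r (z - X j)) y := by
    funext y
    unfold gN
    rw [Finset.sum_sub_distrib]
  have hzd : ∀ (j : Fin M) (y : R3), 2 * ρ ≤ nr (y - X j) →
      (fun z => gm m ρ (z - X j) - gm m r (z - X j)) y = 0 := by
    intro j y hy
    show gm m ρ (y - X j) - gm m r (y - X j) = 0
    rw [hz ρ hρ0 le_rfl j y hy, hz r hr hrρ j y hy, sub_zero]
  refine ⟨?_, ?_, ?_, ?_, ?_⟩
  · rw [e1]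
    exact fld_sum hX had hd (by linarith) hρ0 (fun j z => gm m ρ (z - X j))
      (fun j => fld_scale_sub (hA m ρ hρ0).1 (X j)) (hz ρ hρ0 le_rfl)
  · rw [e2]
    exact fld_sum hX had hd (by linarith) hr (fun j z => gm m ρ (z - X j) - gm m r (z - X j))
      (fun j => fld_scale_sub (hB m r ρ hr hrρ).1 (X j)) hzd
  · intro j y hy i
    have h2 := fld_loc hX had hd (fun j z => gm m ρ (z - X j)) (hz ρ hρ0 le_rfl) y j
      (by linarith)
    have h3 : (fun z => gm m ρ (z - X j)) =ᶠ[nhds y] fun z => z m - X j m := by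
      filter_upwards [(fld_cont (X j)).continuousAt.eventually (gt_mem_nhds hy)] with z hz1
      exact (hA m ρ hρ0).2.1 (z - X j) (le_of_lt hz1)
    have h4 := (fld_pd_ev (h2.trans h3) i).eq_of_nhds
    rw [e1, h4]
    unfold pd
    have h5 : HasFDerivAt (fun z : R3 => z m - X j m)
        (ContinuousLinearMap.proj (R := ℝ) (φ := fun _ : Fin 3 => ℝ) m) y :=
      (ContinuousLinearMap.proj (R := ℝ) (φ := fun _ : Fin 3 => ℝ) m).hasFDerivAt.sub_const _
    rw [h5.fderiv, ContinuousLinearMap.proj_apply, Pi.single_apply]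
    by_cases h : i = m
    · simp [h]
    · simp [h, Ne.symm h]
  · intro y hy i
    have h2 := fld_loc0 (fun j z => gm m ρ (z - X j)) (hz ρ hρ0 le_rfl) y hy
    rw [e1, (fld_pd_ev h2 i).eq_of_nhds, fld_pd0]
  · intro j y hy i
    have h2 := fld_loc hX had hd (fun j z => gm m ρ (z - X j) - gm m r (z - X j)) hzd y j
      (by linarith)
    have h3 : (fun z => gm m ρ (z - X j) - gm m r (z - X j)) =ᶠ[nhds y] fun _ => 0 := by
      filter_upwards [(fld_cont (X j)).continuousAt.eventually (gt_mem_nhds hy)] with z hz1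
      have h6 : nr (z - X j) < r := hz1
      rw [(hA m ρ hρ0).2.1 (z - X j) (by linarith), (hA m r hr).2.1 (z - X j) (by linarith),
        sub_self]
    rw [e2, (fld_pd_ev (h2.trans h3) i).eq_of_nhds, fld_pd0]

end Pool.Agent.Helper37.HV
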